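import Mathlib
import Pool.Agent.Lib.MP_cd3201_co.Dense.Main

/-!
# Distinct circumradii: superlinear for all point sets of dimension larger than one

If a set `P` of `n` points in general position lies in a disc of radius `D` and is `t`-dimensional
with `1 < t < 3/2` on the scales between `σ D` and `D` (a disc of radius `ρ D` contains at most
`K ρ ^ t n` points), then it has at least `c n σ ^ (-(t - 1))` distinct circumradii. If `t = 2` it
has at least `c n σ ^ (-3/4) / K ^ 8`; in particular sets with minimal distance `1` and diameter at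
most `κ √n` have at least `c n ^ (11/8)` distinct circumradii.
-/

open Finset

namespace Pool.Agent.Results.MP_cd3201_co.DimensionAboveOne

open Pool.Agent.Lib.MP_cd3201_co

/-- `numRadii P` is the number `R(P)` of distinct radii of circles through three points of `P`. -/
noncomputable def numRadii (P : Finset Plane) : ℕ :=
  Set.ncard {r : ℝ | ∃ T ⊆ P, T.card = 3 ∧ IsCircumradius T r}

/-- Sanity check: the set of radii is finite, so that `numRadii` really counts it. -/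
theorem finite_radii (P : Finset Plane) :
    {r : ℝ | ∃ T ⊆ P, T.card = 3 ∧ IsCircumradius T r}.Finite := radii_finite P

/-- `P` lies in the closed disc with centre `z` and radius `D`, and for `σ ≤ ρ ≤ 1` every closed
disc of radius `ρ D` contains at most `K ρ ^ t |P|` points of `P`. -/
def Spread (P : Finset Plane) (z : Plane) (D t K σ : ℝ) : Prop :=
  (∀ p ∈ P, dist p z ≤ D) ∧ ∀ (y : Plane) (ρ : ℝ), σ ≤ ρ → ρ ≤ 1 →
    (Set.ncard {p : Plane | p ∈ P ∧ dist p y ≤ ρ * D} : ℝ) ≤ K * ρ ^ t * P.card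

/-- **Superlinear number of distinct circumradii above dimension one.** -/
theorem result :
    -- (1) dimension `1 < t < 3/2`
    (∀ t K : ℝ, 1 < t → t < 3 / 2 → 1 ≤ K → ∃ c : ℝ, 0 < c ∧
      ∀ (P : Finset Plane) (z : Plane) (D σ : ℝ), GeneralPosition P → 3 ≤ P.card → 0 < D →
        0 < σ → σ ≤ 1 → Spread P z D t K σ → c * P.card * σ ^ (-(t - 1)) ≤ numRadii P) ∧
    -- (2) dimension `2`
    (∃ c : ℝ, 0 < c ∧ ∀ (P : Finset Plane) (z : Plane) (D K σ : ℝ),
      GeneralPosition P → 3 ≤ P.card → 0 < D → 1 ≤ K → 0 < σ → σ ≤ 1 → Spread P z D 2 K σ →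
        c * P.card * σ ^ (-(3 / 4 : ℝ)) / K ^ 8 ≤ numRadii P) ∧
    -- (3) dense sets
    (∀ κ : ℝ, ∃ c : ℝ, 0 < c ∧ ∀ P : Finset Plane, GeneralPosition P → 3 ≤ P.card →
      (∀ p ∈ P, ∀ q ∈ P, p ≠ q → 1 ≤ dist p q) →
      (∀ p ∈ P, ∀ q ∈ P, dist p q ≤ κ * √P.card) →
        c * (P.card : ℝ) ^ (11 / 8 : ℝ) ≤ numRadii P) := by
  have hS : ∀ (P : Finset Plane) (z : Plane) (D t K σ : ℝ), Spread P z D t K σ →
      Dense.Spread P z D t K σ := by
    intro P z D t K σ h
    refine ⟨h.1, fun y ρ h1 h2 A hA hAd => ?_⟩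
    refine le_trans ?_ (h.2 y ρ h1 h2)
    have hfin : {p : Plane | p ∈ P ∧ dist p y ≤ ρ * D}.Finite :=
      P.finite_toSet.subset fun p hp => hp.1
    have h3 : (A : Set Plane) ⊆ {p : Plane | p ∈ P ∧ dist p y ≤ ρ * D} := fun p hp =>
      ⟨hA hp, hAd p hp⟩
    have h4 := Set.ncard_le_ncard h3 hfin
    rw [Set.ncard_coe_finset] at h4
    exact_mod_cast h4
  refine ⟨?_, ?_, ?_⟩
  · intro t K h1 h2 h3
    obtain ⟨c, hc, h⟩ := Dense.thmOne t K h1 h2 h3
    exact ⟨c, hc, fun P z D σ g1 g2 g3 g4 g5 g6 => h P z D σ g1 g2 g3 g4 g5 (hS _ _ _ _ _ _ g6)⟩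
  · obtain ⟨c, hc, h⟩ := Dense.thmDim2
    exact ⟨c, hc, fun P z D K σ g1 g2 g3 g4 g5 g6 g7 =>
      h P z D K σ g1 g2 g3 g4 g5 g6 (hS _ _ _ _ _ _ g7)⟩
  · intro κ
    obtain ⟨c, hc, h⟩ := Dense.thmDense κ
    exact ⟨c, hc, fun P g1 g2 g3 g4 => h P g1 g2 g3 g4⟩

end Pool.Agent.Results.MP_cd3201_co.DimensionAboveOne
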