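import Mathlib
import Pool.Agent.Lib.MP_cd3201_co.Strong.Main

/-!
# Distinct circumradii: superlinear for sets with few points on curves of degree at most six

If at most `K` points of a set `P` of `n` points in general position lie on any algebraic curve of
degree at most `6` then `P` has at least `c n ^ (5/4) / K ^ (3/4)` distinct circumradii. So a set
with at most `C n` distinct circumradii has at least `c n ^ (1/3)` points on a curve of degree at
most `6`.
-/

open Finset

namespace Pool.Agent.Results.MP_cd3201_co.FewOnCurves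

open Pool.Agent.Lib.MP_cd3201_co

/-- `numRadii P` is the number `R(P)` of distinct radii of circles through three points of `P`. -/
noncomputable def numRadii (P : Finset Plane) : ℕ :=
  Set.ncard {r : ℝ | ∃ T ⊆ P, T.card = 3 ∧ IsCircumradius T r}

/-- Sanity check: the set of radii is finite, so that `numRadii` really counts it. -/
theorem finite_radii (P : Finset Plane) :
    {r : ℝ | ∃ T ⊆ P, T.card = 3 ∧ IsCircumradius T r}.Finite := radii_finite P

/-- The points `x` of `P`, different from `p, q, p', q'`, for which the triples `p, q, x` and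
`p', q', x` have a common circumradius. -/
def Coinc (P : Finset Plane) (p q p' q' : Plane) : Set Plane :=
  {x | x ∈ P ∧ x ≠ p ∧ x ≠ q ∧ x ≠ p' ∧ x ≠ q' ∧
    ∃ r, IsCircumradius {p, q, x} r ∧ IsCircumradius {p', q', x} r}

/-- The points of `P` on the curve `f = 0`. -/
def OnCurve (P : Finset Plane) (f : MvPolynomial (Fin 2) ℝ) : Set Plane :=
  {x | x ∈ P ∧ MvPolynomial.eval (fun i => x i) f = 0}

/-- **Superlinear number of distinct circumradii for sets with few points on curves of degree at
most six.** -/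
theorem result :
    -- (1) few coincidences of two circumradius functions
    (∃ c : ℝ, 0 < c ∧ ∀ (P : Finset Plane) (K : ℕ), GeneralPosition P → 3 ≤ P.card → 1 ≤ K →
      (∀ p ∈ P, ∀ q ∈ P, ∀ p' ∈ P, ∀ q' ∈ P, p ≠ q → p' ≠ q' →
        ({p, q} : Set Plane) ≠ {p', q'} → (Coinc P p q p' q').ncard ≤ K) →
      c * ((P.card : ℝ) ^ (5 / 4 : ℝ) / (K : ℝ) ^ (3 / 4 : ℝ)) ≤ numRadii P) ∧
    -- (2) few points on curves of degree at most six
    (∃ c : ℝ, 0 < c ∧ ∀ (P : Finset Plane) (K : ℕ), GeneralPosition P → 3 ≤ P.card → 1 ≤ K →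
      (∀ f : MvPolynomial (Fin 2) ℝ, f ≠ 0 → f.totalDegree ≤ 6 → (OnCurve P f).ncard ≤ K) →
      c * ((P.card : ℝ) ^ (5 / 4 : ℝ) / (K : ℝ) ^ (3 / 4 : ℝ)) ≤ numRadii P) ∧
    -- (3) sets with a linear number of circumradii have many points on such a curve
    (∀ C : ℝ, ∃ c : ℝ, 0 < c ∧ ∀ P : Finset Plane, GeneralPosition P → 3 ≤ P.card →
      (numRadii P : ℝ) ≤ C * P.card → ∃ f : MvPolynomial (Fin 2) ℝ, f ≠ 0 ∧ f.totalDegree ≤ 6 ∧
        c * (P.card : ℝ) ^ (1 / 3 : ℝ) ≤ (OnCurve P f).ncard) :=
  ⟨Strong.one, Strong.two, Strong.three⟩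

end Pool.Agent.Results.MP_cd3201_co.FewOnCurves
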