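import Mathlib
import Pool.Agent.Lib.MP_cd3201_co.Int.Lower
import Pool.Agent.Lib.MP_cd3201_co.Int.Upper

/-!
# Distinct circumradii of integer points: the order of growth is `n ^ (2 + o(1))`

For `n`-point sets in general position with integer coordinates of absolute value at most `M` the
number of distinct circumradii is at least `c n² M ^ (-ε)` for every `ε > 0`; and for all large `n`
there are such sets in the grid `{0, …, n⁵}²` with at most `n² exp(25 √(log n))` circumradii. So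
for points in the grid `{0, …, n^k}²`, `k ≥ 5` fixed, the minimum is `n ^ (2 + o(1))`.
-/

open Finset Filter Topology

namespace Pool.Agent.Results.MP_cd3201_co.IntegerPoints

open Pool.Agent.Lib.MP_cd3201_co

/-- `numRadii P` is the number `R(P)` of distinct radii of circles through three points of `P`. -/
noncomputable def numRadii (P : Finset Plane) : ℕ :=
  Set.ncard {r : ℝ | ∃ T ⊆ P, T.card = 3 ∧ IsCircumradius T r}

/-- Sanity check: the set of radii is finite, so that `numRadii` really counts it. -/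
theorem finite_radii (P : Finset Plane) :
    {r : ℝ | ∃ T ⊆ P, T.card = 3 ∧ IsCircumradius T r}.Finite := radii_finite P

/-- Both coordinates of `p` are integers of absolute value at most `M`. -/
def IntegerPoint (M : ℕ) (p : Plane) : Prop :=
  ∃ a b : ℤ, |a| ≤ M ∧ |b| ≤ M ∧ p 0 = a ∧ p 1 = b

/-- `p` is a point of the grid `{0, …, M}²`. -/
def GridPoint (M : ℕ) (p : Plane) : Prop :=
  ∃ a b : ℕ, a ≤ M ∧ b ≤ M ∧ p 0 = a ∧ p 1 = b

/-- `hGrid M n` is the least number of distinct circumradii of an `n`-point set in general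
position in the grid `{0, …, M}²`. -/
noncomputable def hGrid (M n : ℕ) : ℕ :=
  sInf {m : ℕ | ∃ P : Finset Plane, P.card = n ∧ (∀ p ∈ P, GridPoint M p) ∧
    GeneralPosition P ∧ numRadii P = m}

/-- **Distinct circumradii of integer points: the order of growth.**
(1) Lower bound: for every `ε > 0` there is `c > 0` such that all sets `P` of at least three points
in general position with integer coordinates of absolute value at most `M` satisfy
`R(P) ≥ c |P|² / M ^ ε`.
(2) Matching upper bound: for every `k ≥ 5` the minimum of `R(P)` over the `n`-point sets `P` in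
general position in the grid `{0, …, n^k}²` is attained for all large `n`, is at most
`n² exp(25 √(log n))`, and equals `n ^ (2 + o(1))`. -/
theorem result :
    (∀ ε : ℝ, 0 < ε → ∃ c : ℝ, 0 < c ∧ ∀ M : ℕ, 1 ≤ M → ∀ P : Finset Plane,
      (∀ p ∈ P, IntegerPoint M p) → GeneralPosition P → 3 ≤ P.card →
        c * (P.card : ℝ) ^ 2 / (M : ℝ) ^ ε ≤ numRadii P) ∧
    (∀ k : ℕ, 5 ≤ k →
      (∃ n₀ : ℕ, ∀ n : ℕ, n₀ ≤ n → (∃ P : Finset Plane, P.card = n ∧
        (∀ p ∈ P, GridPoint (n ^ k) p) ∧ GeneralPosition P ∧ numRadii P = hGrid (n ^ k) n) ∧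
        (hGrid (n ^ k) n : ℝ) ≤ (n : ℝ) ^ 2 * Real.exp (25 * √(Real.log n))) ∧
      Tendsto (fun n : ℕ => Real.log (hGrid (n ^ k) n) / Real.log n) atTop (𝓝 2)) := by
  have h1 : ∀ ε : ℝ, 0 < ε → ∃ c : ℝ, 0 < c ∧ ∀ M : ℕ, 1 ≤ M → ∀ P : Finset Plane,
      (∀ p ∈ P, IntegerPoint M p) → GeneralPosition P → 3 ≤ P.card →
        c * (P.card : ℝ) ^ 2 / (M : ℝ) ^ ε ≤ numRadii P := fun ε hε => Lower.lower ε hε
  have hlogev : ∀ B : ℝ, ∀ᶠ n : ℕ in atTop, B ≤ Real.log n := fun B =>
    (Real.tendsto_log_atTop.comp tendsto_natCast_atTop_atTop).eventually (eventually_ge_atTop B)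
  obtain ⟨n₀, hn₀⟩ := eventually_atTop.mp (hlogev 100)
  have h2 : ∀ n : ℕ, n₀ ≤ n → ∃ P : Finset Plane, P.card = n ∧
      (∀ p ∈ P, GridPoint (n ^ 5) p) ∧ GeneralPosition P ∧
      (numRadii P : ℝ) ≤ (n : ℝ) ^ 2 * Real.exp (25 * √(Real.log n)) :=
    fun n hn => Upper.exists_good_set_nat n (hn₀ n hn)
  have hgrid : ∀ (M M' : ℕ) (p : Plane), M ≤ M' → GridPoint M p → GridPoint M' p := by
    rintro M M' p h ⟨a, b, ha, hb, h3, h4⟩
    exact ⟨a, b, ha.trans h, hb.trans h, h3, h4⟩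
  have hint : ∀ (M : ℕ) (p : Plane), GridPoint M p → IntegerPoint M p := by
    rintro M p ⟨a, b, ha, hb, h3, h4⟩
    refine ⟨a, b, ?_, ?_, ?_, ?_⟩
    · rw [abs_of_nonneg (by positivity)]; exact_mod_cast ha
    · rw [abs_of_nonneg (by positivity)]; exact_mod_cast hb
    · rw [h3]; simp
    · rw [h4]; simp
  -- attainment and the upper bound
  have h3 : ∀ k : ℕ, 5 ≤ k → ∀ n : ℕ, n₀ ≤ n → 1 ≤ n → (∃ P : Finset Plane, P.card = n ∧
        (∀ p ∈ P, GridPoint (n ^ k) p) ∧ GeneralPosition P ∧ numRadii P = hGrid (n ^ k) n) ∧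
      (hGrid (n ^ k) n : ℝ) ≤ (n : ℝ) ^ 2 * Real.exp (25 * √(Real.log n)) := by
    intro k hk n hn hn1
    obtain ⟨P, hPn, hPg, hgen, hP⟩ := h2 n hn
    have hPg' : ∀ p ∈ P, GridPoint (n ^ k) p := fun p hp =>
      hgrid _ _ p (Nat.pow_le_pow_right hn1 hk) (hPg p hp)
    have hne : {m : ℕ | ∃ P : Finset Plane, P.card = n ∧ (∀ p ∈ P, GridPoint (n ^ k) p) ∧
        GeneralPosition P ∧ numRadii P = m}.Nonempty := ⟨_, P, hPn, hPg', hgen, rfl⟩
    refine ⟨Nat.sInf_mem hne, ?_⟩
    have h5 : hGrid (n ^ k) n ≤ numRadii P := Nat.sInf_le ⟨P, hPn, hPg', hgen, rfl⟩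
    exact (show ((hGrid (n ^ k) n : ℕ) : ℝ) ≤ numRadii P by exact_mod_cast h5).trans hP
  refine ⟨h1, ?_⟩
  intro k hk
  refine ⟨⟨max n₀ 1, fun n hn => h3 k hk n (le_trans (le_max_left _ _) hn)
    (le_trans (le_max_right _ _) hn)⟩, ?_⟩
  rw [Metric.tendsto_atTop']
  intro δ hδ
  have hkR : (0 : ℝ) < k := by
    have : 0 < k := by omega
    exact_mod_cast this
  obtain ⟨c, hc, hlow⟩ := h1 (δ / 2 / k) (by positivity)
  obtain ⟨N, hN⟩ := eventually_atTop.mp ((hlogev 100).and ((hlogev (2 * |Real.log c| / (δ / 2))).and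
    (hlogev ((100 / δ) ^ 2))))
  refine ⟨max N (max n₀ 3), ?_⟩
  intro n hn
  have hnN : N ≤ n := (le_max_left _ _).trans hn.le
  have hnn₀ : n₀ ≤ n := ((le_max_left _ _).trans (le_max_right _ _)).trans hn.le
  have hn3 : 3 ≤ n := ((le_max_right _ _).trans (le_max_right _ _)).trans hn.le
  obtain ⟨L1, L2, L3⟩ := hN n hnN
  set ℓ := Real.log n with hℓ
  have hℓ0 : 0 < ℓ := by linarith
  have hnR : (0 : ℝ) < n := by
    have : 0 < n := by omega
    exact_mod_cast this
  obtain ⟨⟨P, hPn, hPg, hgen, hP⟩, hup⟩ := h3 k hk n hnn₀ (by omega)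
  have hlow' := hlow (n ^ k) (Nat.one_le_pow _ _ (by omega)) P
    (fun p hp => hint _ p (hPg p hp)) hgen (by rw [hPn]; exact hn3)
  rw [hPn, hP] at hlow'
  have hM : (((n ^ k : ℕ) : ℝ)) ^ (δ / 2 / k) = (n : ℝ) ^ (δ / 2) := by
    push_cast
    rw [← Real.rpow_natCast, ← Real.rpow_mul hnR.le]
    congr 1
    field_simp
  rw [hM] at hlow'
  set H : ℝ := (hGrid (n ^ k) n : ℝ) with hH
  have hHpos : 0 < H := lt_of_lt_of_le (by positivity) hlow'
  have hup2 : Real.log H ≤ 2 * ℓ + 25 * √ℓ := by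
    have := Real.log_le_log hHpos hup
    rw [Real.log_mul (by positivity) (by positivity), Real.log_exp, Real.log_pow] at this
    push_cast at this
    exact this
  have hlow2 : Real.log c + 2 * ℓ - δ / 2 * ℓ ≤ Real.log H := by
    have := Real.log_le_log (by positivity) hlow'
    rw [Real.log_div (by positivity) (by positivity), Real.log_mul (by positivity) (by positivity),
      Real.log_pow, Real.log_rpow hnR] at this
    push_cast at this
    linarith
  rw [Real.dist_eq, abs_lt]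
  constructor
  · rw [lt_sub_iff_add_lt, lt_div_iff₀ hℓ0]
    have e1 : 2 * |Real.log c| ≤ (δ / 2) * ℓ := by
      rw [div_le_iff₀ (by positivity)] at L2
      linarith
    have e2 := neg_abs_le (Real.log c)
    have e3 : 0 < δ * ℓ := by positivity
    have e4 := abs_nonneg (Real.log c)
    nlinarith
  · rw [sub_lt_iff_lt_add, div_lt_iff₀ hℓ0]
    have e1 : 100 / δ ≤ √ℓ := Real.le_sqrt_of_sq_le L3
    have e2 : √ℓ * √ℓ = ℓ := Real.mul_self_sqrt hℓ0.le
    have e3 : 0 < √ℓ := Real.sqrt_pos.mpr hℓ0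
    have e4 : 100 ≤ √ℓ * δ := by
      rw [div_le_iff₀ hδ] at e1
      exact e1
    have e5 : δ * ℓ = (√ℓ * δ) * √ℓ := by linear_combination (-δ) * e2
    have e6 : 100 * √ℓ ≤ (√ℓ * δ) * √ℓ := mul_le_mul_of_nonneg_right e4 e3.le
    linarith

end Pool.Agent.Results.MP_cd3201_co.IntegerPoints
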