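import Mathlib
import Pool.Agent.Lib.MP_cd3201_co.Defs
import Pool.Agent.Lib.MP_cd3201_co.Radii

/-!
# Few distinct circumradii: `h(n) ≤ n² exp(25 √(log n))`

Generic planar projections of the lattice points of a box on a sphere in high dimension are in
general position, and the circumradius of three of them depends only on two difference vectors.
-/

open Finset

namespace Pool.Agent.Results.MP_cd3201_co.NearQuadraticUpperBound

open Pool.Agent.Lib.MP_cd3201_co

/-- `numRadii P` is the number `R(P)` of distinct radii of circles through three points of `P`. -/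
noncomputable def numRadii (P : Finset Plane) : ℕ :=
  Set.ncard {r : ℝ | ∃ T ⊆ P, T.card = 3 ∧ IsCircumradius T r}

/-- Sanity check: the set of radii is finite, so that `numRadii` really counts it. -/
theorem finite_radii (P : Finset Plane) :
    {r : ℝ | ∃ T ⊆ P, T.card = 3 ∧ IsCircumradius T r}.Finite := radii_finite P

/-- `h n` is the least number of distinct circumradii of an `n`-point set in general position. -/
noncomputable def h (n : ℕ) : ℕ :=
  sInf {m : ℕ | ∃ P : Finset Plane, P.card = n ∧ GeneralPosition P ∧ numRadii P = m}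

lemma exists_set (n k q : ℕ) (hk : 1 ≤ k) (hq : 1 ≤ q) (hn : n * (k + 2) ≤ q ^ k) :
    ∃ P : Finset Plane, P.card = n ∧ GeneralPosition P ∧
      numRadii P ≤ (2 * q) ^ (k + 2) * (2 * q) ^ (k + 2) := by
  obtain ⟨X, hgen, hX, hsmall⟩ := exists_few_radii_set (k + 2) q (by omega) hq
  have hcard : n ≤ X.card := by
    have h1 : n * ((k + 2) * q ^ 2) ≤ X.card * ((k + 2) * q ^ 2) := by
      calc n * ((k + 2) * q ^ 2) = n * (k + 2) * q ^ 2 := by ring
        _ ≤ q ^ k * q ^ 2 := Nat.mul_le_mul_right _ hn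
        _ = q ^ (k + 2) := by rw [← pow_add]
        _ ≤ _ := hX
    exact Nat.le_of_mul_le_mul_right h1 (by positivity)
  obtain ⟨P, hP, hPn⟩ := exists_subset_card_eq hcard
  exact ⟨P, hPn, ⟨fun T hT => hgen.1 T (hT.trans hP), fun Q hQ => hgen.2 Q (hQ.trans hP)⟩,
    hsmall P hP⟩

lemma add_two_le_two_pow {k : ℕ} (hk : 2 ≤ k) : k + 2 ≤ 2 ^ k := by
  induction k, hk using Nat.le_induction with
  | base => norm_num
  | succ m hm ih => rw [pow_succ]; omega

lemma exists_good_set (n : ℕ) (hn : 3 ≤ n) :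
    ∃ P : Finset Plane, P.card = n ∧ GeneralPosition P ∧
      (numRadii P : ℝ) ≤ (n : ℝ) ^ 2 * Real.exp (25 * √(Real.log n)) := by
  have hnR : (3 : ℝ) ≤ n := by exact_mod_cast hn
  have hnpos : (0 : ℝ) < n := by linarith
  set K := Real.log n with hK
  set s := √K with hs
  have hK1 : 1 ≤ K := by
    rw [hK, Real.le_log_iff_exp_le hnpos]
    have := Real.exp_one_lt_d9
    linarith
  have hs2 : s * s = K := Real.mul_self_sqrt (by linarith)
  have hs1 : 1 ≤ s := Real.one_le_sqrt.mpr hK1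
  have hnexp : (n : ℝ) = Real.exp K := (Real.exp_log hnpos).symm
  have hlog2 := Real.log_two_gt_d9
  have hlog2' := Real.log_two_lt_d9
  set k := ⌈s⌉₊ + 1 with hk
  have hk2 : 2 ≤ k := by
    have : 1 ≤ ⌈s⌉₊ := Nat.one_le_ceil_iff.mpr (by linarith)
    omega
  have hk0 : k ≠ 0 := by omega
  have hsk : s ≤ k := by
    rw [hk]; push_cast
    linarith [Nat.le_ceil s]
  have hks : (k : ℝ) ≤ s + 2 := by
    rw [hk]; push_cast
    linarith [Nat.ceil_lt_add_one (show (0 : ℝ) ≤ s by linarith)]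
  have hdk : ((k : ℝ) + 2) ≤ 2 ^ k := by
    have h1 : k + 2 ≤ 2 ^ k := add_two_le_two_pow hk2
    exact_mod_cast h1
  have hexp2 : (2 : ℝ) ^ k = Real.exp (Real.log 2 * k) := by
    rw [← Real.rpow_natCast, Real.rpow_def_of_pos (by norm_num)]
  set y : ℝ := ((n : ℝ) * (k + 2)) ^ ((k : ℝ)⁻¹) with hy
  have hy0 : 0 < y := by positivity
  have hyk : y ^ k = (n : ℝ) * (k + 2) := by
    rw [hy]; exact Real.rpow_inv_natCast_pow (by positivity) hk0
  have hy1 : 1 ≤ y := by
    by_contra hcon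
    push Not at hcon
    have h1 : y ^ k ≤ 1 := pow_le_one₀ hy0.le hcon.le
    rw [hyk] at h1
    have : (0 : ℝ) ≤ k := Nat.cast_nonneg k
    nlinarith
  set q := ⌈y⌉₊ with hq
  have hqy : y ≤ q := Nat.le_ceil y
  have hqy2 : (q : ℝ) ≤ 2 * y := by
    have := Nat.ceil_lt_add_one hy0.le
    linarith
  have hq1 : 1 ≤ q := Nat.one_le_ceil_iff.mpr hy0
  have hcond : n * (k + 2) ≤ q ^ k := by
    have h1 : (n : ℝ) * (k + 2) ≤ (q : ℝ) ^ k := by
      rw [← hyk]; exact pow_le_pow_left₀ hy0.le hqy k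
    exact_mod_cast h1
  obtain ⟨P, hPn, hgen, hrad⟩ := exists_set n k q (by omega) hq1 hcond
  refine ⟨P, hPn, hgen, ?_⟩
  have hradR : (numRadii P : ℝ) ≤ (2 * (q : ℝ)) ^ (k + 2) * (2 * (q : ℝ)) ^ (k + 2) := by
    exact_mod_cast hrad
  -- `y ≤ exp (1.7 s)`
  have hyexp : y ≤ Real.exp (1.7 * s) := by
    have h2 : y ^ k ≤ (Real.exp (1.7 * s)) ^ k := by
      rw [hyk, ← Real.exp_nat_mul]
      calc (n : ℝ) * (k + 2) ≤ Real.exp K * Real.exp (Real.log 2 * k) := by
            rw [← hnexp, ← hexp2]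
            exact mul_le_mul_of_nonneg_left hdk hnpos.le
        _ = Real.exp (K + Real.log 2 * k) := by rw [← Real.exp_add]
        _ ≤ Real.exp (k * (1.7 * s)) := by
            apply Real.exp_le_exp.mpr
            have e1 : K ≤ k * s := by nlinarith
            have e2 : Real.log 2 * k ≤ 0.7 * (k * s) := by
              have : (0 : ℝ) ≤ k := Nat.cast_nonneg k
              nlinarith
            linarith
    exact le_of_pow_le_pow_left₀ hk0 (Real.exp_pos _).le h2
  have hk2exp : ((k : ℝ) + 2) ^ 2 ≤ Real.exp (1.4 * (s + 2)) := by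
    calc ((k : ℝ) + 2) ^ 2 ≤ (2 ^ k) ^ 2 := pow_le_pow_left₀ (by positivity) hdk 2
      _ = Real.exp (2 * (Real.log 2 * k)) := by rw [hexp2, ← Real.exp_nat_mul]; norm_num
      _ ≤ Real.exp (1.4 * (s + 2)) := by
          apply Real.exp_le_exp.mpr
          have : (0 : ℝ) ≤ k := Nat.cast_nonneg k
          nlinarith
  have h16 : (16 : ℝ) ^ (k + 2) ≤ Real.exp (2.78 * (s + 4)) := by
    have e1 : (16 : ℝ) ^ (k + 2) = Real.exp (Real.log 16 * ((k + 2 : ℕ) : ℝ)) := by
      rw [← Real.rpow_natCast, Real.rpow_def_of_pos (by norm_num)]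
    have e2 : Real.log 16 = 4 * Real.log 2 := by
      rw [show (16 : ℝ) = 2 ^ 4 by norm_num, Real.log_pow]; norm_num
    rw [e1]
    apply Real.exp_le_exp.mpr
    rw [e2]
    push_cast
    have : (0 : ℝ) ≤ k := Nat.cast_nonneg k
    nlinarith
  have hy4 : y ^ 4 ≤ Real.exp (6.8 * s) := by
    calc y ^ 4 ≤ (Real.exp (1.7 * s)) ^ 4 := pow_le_pow_left₀ hy0.le hyexp 4
      _ = Real.exp (6.8 * s) := by rw [← Real.exp_nat_mul]; congr 1; push_cast; ring
  calc (numRadii P : ℝ) ≤ (2 * (q : ℝ)) ^ (k + 2) * (2 * (q : ℝ)) ^ (k + 2) := hradR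
    _ ≤ (4 * y) ^ (k + 2) * (4 * y) ^ (k + 2) := by
        have h3 : (2 * (q : ℝ)) ^ (k + 2) ≤ (4 * y) ^ (k + 2) :=
          pow_le_pow_left₀ (by positivity) (by linarith) _
        exact mul_le_mul h3 h3 (by positivity) (by positivity)
    _ = 16 ^ (k + 2) * ((y ^ k) ^ 2 * y ^ 4) := by
        rw [← mul_pow, show 4 * y * (4 * y) = 16 * y ^ 2 by ring, mul_pow]; ring
    _ = 16 ^ (k + 2) * ((n : ℝ) ^ 2 * ((k : ℝ) + 2) ^ 2 * y ^ 4) := by rw [hyk]; ring
    _ = (n : ℝ) ^ 2 * (16 ^ (k + 2) * ((k : ℝ) + 2) ^ 2 * y ^ 4) := by ring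
    _ ≤ (n : ℝ) ^ 2 * (Real.exp (2.78 * (s + 4)) * Real.exp (1.4 * (s + 2)) *
          Real.exp (6.8 * s)) := by
        apply mul_le_mul_of_nonneg_left _ (by positivity)
        apply mul_le_mul _ hy4 (by positivity) (by positivity)
        exact mul_le_mul h16 hk2exp (by positivity) (by positivity)
    _ = (n : ℝ) ^ 2 * Real.exp (2.78 * (s + 4) + 1.4 * (s + 2) + 6.8 * s) := by
        rw [← Real.exp_add, ← Real.exp_add]
    _ ≤ (n : ℝ) ^ 2 * Real.exp (25 * s) := by
        apply mul_le_mul_of_nonneg_left _ (by positivity)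
        apply Real.exp_le_exp.mpr
        norm_num; linarith

/-- **Near-quadratic upper bound.** For every `n ≥ 3` the minimum defining `h n` is attained by an
`n`-point set in general position, and `h n ≤ n² exp(25 √(log n)) = n ^ (2 + o(1))`. -/
theorem result (n : ℕ) (hn : 3 ≤ n) :
    (∃ P : Finset Plane, P.card = n ∧ GeneralPosition P ∧ numRadii P = h n) ∧
      (h n : ℝ) ≤ (n : ℝ) ^ 2 * Real.exp (25 * √(Real.log n)) := by
  obtain ⟨P, hPn, hgen, hP⟩ := exists_good_set n hn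
  have hne : {m : ℕ | ∃ P : Finset Plane, P.card = n ∧ GeneralPosition P ∧
      numRadii P = m}.Nonempty := ⟨_, P, hPn, hgen, rfl⟩
  refine ⟨Nat.sInf_mem hne, ?_⟩
  have h1 : h n ≤ numRadii P := Nat.sInf_le ⟨P, hPn, hgen, rfl⟩
  exact (show ((h n : ℕ) : ℝ) ≤ numRadii P by exact_mod_cast h1).trans hP

end Pool.Agent.Results.MP_cd3201_co.NearQuadraticUpperBound
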